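import Pool.Agent.H74.BRB.Stmts

/-!
# BRB, row UNI: the uniform bound (problem MP_46d976_co)
-/

set_option autoImplicit false

namespace Pool.BRB

theorem UNI (hPTH : PTHStmt) (hUPO : UPOStmt) (hFLB : FLBStmt) (hLGB : LGBStmt) : UNIStmt := by
  intro M o d k n hw hn
  obtain ⟨r, hr, h1⟩ := hLGB n hn
  have h2 := hPTH M d o (uu M d n) k ((hUPO M d).1 n) hw
  have h3 := hFLB M d r n hr (by omega)
  have h4 : Lap M (uu M d n) d ≤ 270 / Real.log n := h3.trans h1
  have hk : (0 : ℝ) ≤ k := Nat.cast_nonneg k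
  calc uu M d n o ≤ k * Lap M (uu M d n) d := h2
    _ ≤ k * (270 / Real.log n) := mul_le_mul_of_nonneg_left h4 hk
    _ = 270 * k / Real.log n := by ring

end Pool.BRB
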